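import Pool.Agent.R271.TsiUpper

/-!
# The weak Banach-Saks quantity of order one of the unit ball of Tsirelson space
-/

open Filter Topology
open Finset Pool.Agent.H825R3.Tsi Pool.Agent.R271.TsiUpper

namespace Pool.Agent.Results.MP_a61181_an.TsirelsonIntermediate

/-- The least element of the support. -/
noncomputable def minSupp (a : ℕ →₀ ℝ) : ℕ := sInf {i | a i ≠ 0}

/-- The numbers `k_n` in the construction of the averages of order `ζ + 1` (the terms of the
sequence `ζ` are numbered from `0` on). -/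
noncomputable def kk (ζ : ℕ → ℕ →₀ ℝ) : ℕ → ℕ
  | 0 => 0
  | n + 1 => kk ζ n + minSupp (ζ (kk ζ n))

/-- The passage from the averages of order `ζ` to the averages of order `ζ + 1`. -/
noncomputable def nextAvg (ζ : ℕ → ℕ →₀ ℝ) (n : ℕ) : ℕ →₀ ℝ :=
  (1 / (minSupp (ζ (kk ζ n)) : ℝ)) • ∑ i ∈ range (minSupp (ζ (kk ζ n))), ζ (kk ζ n + i)

/-- The repeated averages of finite order along the set `{m 0 < m 1 < ...}`. -/
noncomputable def avg (m : ℕ → ℕ) : ℕ → ℕ → (ℕ →₀ ℝ)
  | 0 => fun n => Finsupp.single (m n) 1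
  | ξ + 1 => nextAvg (avg m ξ)

section defs

variable {X : Type} [NormedAddCommGroup X] [NormedSpace ℝ X]

/-- The sum `a · (x_k) = ∑ a_k x_k`. -/
noncomputable def dot (a : ℕ →₀ ℝ) (x : ℕ → X) : X := a.sum fun k r => r • x k

/-- The quantity `ca`. -/
noncomputable def ca (y : ℕ → X) : ℝ :=
  ⨅ n : ℕ, ⨆ p : {p : ℕ × ℕ // n ≤ p.1 ∧ n ≤ p.2}, ‖y p.1.1 - y p.1.2‖

/-- The Cesaro means; the `n`-th of them is the mean of the first `n + 1` terms. -/
noncomputable def cesaro (x : ℕ → X) (n : ℕ) : X := (1 / ((n : ℝ) + 1)) • ∑ i ∈ range (n + 1), x i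

/-- The quantity `cca`. -/
noncomputable def cca (x : ℕ → X) : ℝ := ca (cesaro x)

/-- The quantity `cca~_ξ`, the infimum over all infinite sets of positive integers. -/
noncomputable def ccaTilde (ξ : ℕ) (x : ℕ → X) : ℝ :=
  ⨅ m : {m : ℕ → ℕ // StrictMono m ∧ 0 < m 0}, cca (fun n => dot (avg m.1 ξ n) x)

/-- Weakly convergent sequences. -/
def WeaklyConvergent (x : ℕ → X) : Prop :=
  ∃ l : X, ∀ f : StrongDual ℝ X, Tendsto (fun n => f (x n)) atTop (𝓝 (f l))

/-- The quantity `wbs_ξ(A)`. -/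
noncomputable def wbs (ξ : ℕ) (A : Set X) : ℝ :=
  sSup {c | ∃ x : ℕ → X, (∀ n, x n ∈ A) ∧ WeaklyConvergent x ∧ c = ccaTilde ξ x}

end defs

/-! ### The averages of order one -/

lemma minSupp_single (p : ℕ) : minSupp (Finsupp.single p 1) = p := by
  have h1 : {i | (Finsupp.single p (1 : ℝ)) i ≠ 0} = {p} := by
    ext i
    rw [Set.mem_singleton_iff]
    show (Finsupp.single p (1 : ℝ)) i ≠ 0 ↔ i = p
    rw [Finsupp.single_apply]
    by_cases h : p = i
    · simp [h]
    · simp [h, Ne.symm h]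
  rw [minSupp, h1, csInf_singleton]

/-- The cutting indices for the averages of order one. -/
noncomputable def kq (m : ℕ → ℕ) : ℕ → ℕ := kk (avg m 0)

lemma kq_succ (m : ℕ → ℕ) (i : ℕ) : kq m (i + 1) = kq m i + m (kq m i) := by
  show kk (avg m 0) i + minSupp (Finsupp.single (m (kk (avg m 0) i)) 1) = _
  rw [minSupp_single]
  rfl

lemma avg_one (m : ℕ → ℕ) (i : ℕ) :
    avg m 1 i = (1 / (m (kq m i) : ℝ)) • ∑ j ∈ Ico (kq m i) (kq m (i + 1)),
      Finsupp.single (m j) 1 := by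
  have h1 : avg m 1 i = (1 / (minSupp (Finsupp.single (m (kq m i)) 1) : ℝ)) •
      ∑ j ∈ range (minSupp (Finsupp.single (m (kq m i)) 1)), Finsupp.single (m (kq m i + j)) 1 :=
    rfl
  rw [h1, minSupp_single, kq_succ, Finset.sum_Ico_eq_sum_range, Nat.add_sub_cancel_left]

section

variable {X : Type} [NormedAddCommGroup X] [NormedSpace ℝ X]

lemma dot_eq (a : ℕ →₀ ℝ) (x : ℕ → X) : dot a x = Finsupp.linearCombination ℝ x a := rfl

lemma dot_avg_one (m : ℕ → ℕ) (i : ℕ) (x : ℕ → X) :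
    dot (avg m 1 i) x = (1 / (m (kq m i) : ℝ)) • ∑ j ∈ Ico (kq m i) (kq m (i + 1)), x (m j) := by
  rw [avg_one, dot_eq, map_smul, map_sum]
  congr 1
  refine Finset.sum_congr rfl fun j _ => ?_
  rw [Finsupp.linearCombination_single, one_smul]

/-- Averages of vectors of norm at most `C`. -/
lemma norm_block_le {m : ℕ → ℕ} (hm0 : ∀ i, 0 < m i) (i : ℕ) (y : ℕ → X) {C : ℝ}
    (hy : ∀ j, ‖y j‖ ≤ C) :
    ‖(1 / (m (kq m i) : ℝ)) • ∑ j ∈ Ico (kq m i) (kq m (i + 1)), y j‖ ≤ C := by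
  have hs' : (0 : ℝ) < m (kq m i) := by exact_mod_cast hm0 _
  rw [norm_smul, Real.norm_of_nonneg (by positivity), one_div, inv_mul_le_iff₀ hs']
  refine (norm_sum_le _ _).trans ((Finset.sum_le_sum fun j _ => hy j).trans (le_of_eq ?_))
  rw [Finset.sum_const, Nat.card_Ico, kq_succ, Nat.add_sub_cancel_left, nsmul_eq_mul]

lemma norm_cesaro_le {y : ℕ → X} {C : ℝ} (hy : ∀ j, ‖y j‖ ≤ C) (n : ℕ) : ‖cesaro y n‖ ≤ C := by
  rw [cesaro, norm_smul, Real.norm_of_nonneg (by positivity), one_div,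
    inv_mul_le_iff₀ (by positivity)]
  refine (norm_sum_le _ _).trans ((Finset.sum_le_sum fun j _ => hy j).trans (le_of_eq ?_))
  rw [Finset.sum_const, Finset.card_range, nsmul_eq_mul]
  push_cast
  ring

lemma pos_of_strictMono {m : ℕ → ℕ} (hm : StrictMono m) (h0 : 0 < m 0) (i : ℕ) : 0 < m i :=
  lt_of_lt_of_le h0 (hm.monotone (Nat.zero_le i))

lemma bdd_diff {y : ℕ → X} {C : ℝ} (hy : ∀ j, ‖y j‖ ≤ C) (n : ℕ) :
    BddAbove (Set.range fun p : {p : ℕ × ℕ // n ≤ p.1 ∧ n ≤ p.2} => ‖y p.1.1 - y p.1.2‖) := by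
  refine ⟨C + C, ?_⟩
  rintro _ ⟨p, rfl⟩
  exact (norm_sub_le _ _).trans (add_le_add (hy _) (hy _))

lemma ca_nonneg (y : ℕ → X) : 0 ≤ ca y :=
  Real.iInf_nonneg fun _ => Real.iSup_nonneg fun _ => norm_nonneg _

end

/-! ### The lower estimate -/

section lower

variable {T : Type} [NormedAddCommGroup T] [NormedSpace ℝ T] {e : ℕ → T}

lemma kq_mono {m : ℕ → ℕ} : Monotone (kq m) :=
  monotone_nat_of_le_succ fun i => by rw [kq_succ]; exact Nat.le_add_right _ _

lemma le_kq {m : ℕ → ℕ} (hm : ∀ i, 0 < m i) (i : ℕ) : i ≤ kq m i := by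
  induction i with
  | zero => exact Nat.zero_le _
  | succ i ih =>
    rw [kq_succ]
    have := hm (kq m i)
    omega

lemma avg_apply {m : ℕ → ℕ} (hm : StrictMono m) (i j : ℕ) : avg m 1 i (m j) =
    if kq m i ≤ j ∧ j < kq m (i + 1) then 1 / (m (kq m i) : ℝ) else 0 := by
  rw [avg_one, Finsupp.smul_apply, Finsupp.finsetSum_apply, smul_eq_mul]
  by_cases h : kq m i ≤ j ∧ j < kq m (i + 1)
  · rw [if_pos h, Finset.sum_eq_single_of_mem j (Finset.mem_Ico.2 h)]
    · rw [Finsupp.single_eq_same, mul_one]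
    · intro b _ hb
      rw [Finsupp.single_apply, if_neg fun h' => hb (hm.injective h')]
  · rw [if_neg h, Finset.sum_eq_zero, mul_zero]
    intro b hb
    rw [Finsupp.single_apply, if_neg]
    intro h'
    have := hm.injective h'
    subst this
    exact h (Finset.mem_Ico.1 hb)

lemma avg_supp {m : ℕ → ℕ} {i p : ℕ} (hp : avg m 1 i p ≠ 0) :
    ∃ j, kq m i ≤ j ∧ j < kq m (i + 1) ∧ p = m j := by
  by_contra hcon
  push Not at hcon
  apply hp
  rw [avg_one, Finsupp.smul_apply, Finsupp.finsetSum_apply, Finset.sum_eq_zero, smul_zero]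
  intro b hb
  rw [Finsupp.single_apply, if_neg]
  intro h'
  obtain ⟨h1, h2⟩ := Finset.mem_Ico.1 hb
  exact hcon b h1 h2 h'.symm

lemma half_le (h : IsTsirelson T e) {m : ℕ → ℕ} (hm : StrictMono m) (h0 : 0 < m 0) (i : ℕ) :
    1 / 2 ≤ ‖comb e (avg m 1 i)‖ := by
  have hs : 0 < m (kq m i) := pos_of_strictMono hm h0 _
  have hs' : (0 : ℝ) < m (kq m i) := by exact_mod_cast hs
  have h1 := h.adm_le' (avg m 1 i) (m (kq m i)) (fun l => {m (kq m i + l)})
    (by
      intro l _ a ha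
      rw [Finset.mem_singleton] at ha
      have := hm.monotone (Nat.le_add_right (kq m i) l)
      omega)
    (by
      intro l l' hll _ a ha b hb
      rw [Finset.mem_singleton] at ha hb
      rw [ha, hb]
      exact hm (by omega))
  have h2 : ∀ l ∈ range (m (kq m i)), 1 / (m (kq m i) : ℝ) ≤
      ‖comb e (restr {m (kq m i + l)} (avg m 1 i))‖ := by
    intro l hl
    have h3 := h.coord_le (restr {m (kq m i + l)} (avg m 1 i)) (m (kq m i + l))
    rw [restr, Finsupp.filter_apply_pos _ _ (Finset.mem_singleton_self _), avg_apply hm,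
      if_pos ⟨Nat.le_add_right _ _, by
        rw [kq_succ]; exact Nat.add_lt_add_left (Finset.mem_range.1 hl) _⟩,
      abs_of_pos (by positivity)] at h3
    exact h3
  have h3 := Finset.sum_le_sum h2
  rw [Finset.sum_const, Finset.card_range, nsmul_eq_mul, mul_one_div, div_self hs'.ne'] at h3
  linarith

/-- Finite version of the Cesaro means. -/
noncomputable def UU (m : ℕ → ℕ) (n : ℕ) : ℕ →₀ ℝ :=
  (1 / ((n : ℝ) + 1)) • ∑ i ∈ range (n + 1), avg m 1 i

lemma cesaro_eq (m : ℕ → ℕ) (n : ℕ) :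
    cesaro (fun i => dot (avg m 1 i) e) n = Lc e (UU m n) := by
  rw [cesaro, UU, map_smul, map_sum]
  rfl

lemma lower_est (h : IsTsirelson T e) {m : ℕ → ℕ} (hm : StrictMono m) (h0 : 0 < m 0) (n : ℕ) :
    1 / 8 ≤ ‖Lc e (UU m n) - Lc e (UU m (2 * n + 1))‖ := by
  have hm0 := pos_of_strictMono hm h0
  rw [← map_sub]
  set g : ℕ →₀ ℝ := UU m n - UU m (2 * n + 1) with hg
  let E : ℕ → Finset ℕ := fun i => (Ico (kq m (n + 1 + i)) (kq m (n + 1 + i + 1))).image m
  have h1 := h.adm_le' g (n + 1) E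
    (by
      intro i _ a ha
      obtain ⟨j, hj, rfl⟩ := Finset.mem_image.1 ha
      have h2 := (Finset.mem_Ico.1 hj).1
      have h3 := le_kq hm0 (n + 1 + i)
      have h4 := hm.le_apply (x := j)
      omega)
    (by
      intro i i' hii _ a ha b hb
      obtain ⟨j, hj, rfl⟩ := Finset.mem_image.1 ha
      obtain ⟨j', hj', rfl⟩ := Finset.mem_image.1 hb
      apply hm
      have h2 := (Finset.mem_Ico.1 hj).2
      have h3 := (Finset.mem_Ico.1 hj').1
      have h4 := kq_mono (m := m) (show n + 1 + i + 1 ≤ n + 1 + i' by omega)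
      omega)
  have hval : ∀ i j, kq m i ≤ j → j < kq m (i + 1) → ∀ q, UU m q (m j) =
      if i < q + 1 then (1 / ((q : ℝ) + 1)) * (1 / (m (kq m i) : ℝ)) else 0 := by
    intro i j h2 h3 q
    rw [UU, Finsupp.smul_apply, Finsupp.finsetSum_apply, smul_eq_mul]
    have h4 : ∀ i', i' ≠ i → avg m 1 i' (m j) = 0 := by
      intro i' hne
      rw [avg_apply hm, if_neg]
      rintro ⟨h5, h6⟩
      rcases lt_or_gt_of_ne hne with h7 | h7
      · have := kq_mono (m := m) (show i' + 1 ≤ i by omega)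
        omega
      · have := kq_mono (m := m) (show i + 1 ≤ i' by omega)
        omega
    by_cases hi : i < q + 1
    · rw [if_pos hi, Finset.sum_eq_single_of_mem i (Finset.mem_range.2 hi) fun b _ hb => h4 b hb,
        avg_apply hm, if_pos ⟨h2, h3⟩]
    · rw [if_neg hi, Finset.sum_eq_zero, mul_zero]
      intro b hb
      apply h4
      rintro rfl
      exact hi (Finset.mem_range.1 hb)
  have h2 : ∀ i ∈ range (n + 1), 1 / (2 * ((n : ℝ) + 1)) * (1 / 2) ≤ ‖comb e (restr (E i) g)‖ := by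
    intro i hi
    have hi' := Finset.mem_range.1 hi
    have h3 : restr (E i) g = (-(1 / (2 * ((n : ℝ) + 1)))) • avg m 1 (n + 1 + i) := by
      ext p
      rw [Finsupp.smul_apply, smul_eq_mul]
      by_cases hp : p ∈ E i
      · rw [restr, Finsupp.filter_apply_pos _ _ hp]
        obtain ⟨j, hj, rfl⟩ := Finset.mem_image.1 hp
        obtain ⟨h4, h5⟩ := Finset.mem_Ico.1 hj
        rw [hg, Finsupp.sub_apply, hval _ j h4 h5, hval _ j h4 h5, if_neg (by omega),
          if_pos (by omega), avg_apply hm, if_pos ⟨h4, h5⟩]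
        push_cast
        have : 2 * (n : ℝ) + 1 + 1 = 2 * ((n : ℝ) + 1) := by ring
        rw [this]
        ring
      · rw [restr, Finsupp.filter_apply_neg _ _ hp]
        have : avg m 1 (n + 1 + i) p = 0 := by
          by_contra hne
          obtain ⟨j, hj1, hj2, rfl⟩ := avg_supp hne
          exact hp (Finset.mem_image_of_mem _ (Finset.mem_Ico.2 ⟨hj1, hj2⟩))
        rw [this, mul_zero]
    rw [h3, comb_eq, map_smul, norm_smul, norm_neg, Real.norm_of_nonneg (by positivity)]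
    exact mul_le_mul_of_nonneg_left (half_le h hm h0 _) (by positivity)
  have h3 := Finset.sum_le_sum h2
  rw [Finset.sum_const, Finset.card_range, nsmul_eq_mul] at h3
  have h4 : ((n + 1 : ℕ) : ℝ) * (1 / (2 * ((n : ℝ) + 1)) * (1 / 2)) = 1 / 4 := by
    push_cast
    have : (n : ℝ) + 1 ≠ 0 := by positivity
    field_simp
    norm_num
  rw [h4] at h3
  have h5 : ‖Lc e g‖ = ‖comb e g‖ := rfl
  rw [h5]
  linarith

end lower

/-! ### The upper estimate -/

section upper

variable {T : Type} [NormedAddCommGroup T] [NormedSpace ℝ T] {e : ℕ → T}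

lemma upper_est (h : IsTsirelson T e) {x : ℕ → T} (hx : ∀ n, ‖x n‖ ≤ 1) {l : T}
    (hl : ∀ f : StrongDual ℝ T, Tendsto (fun n => f (x n)) atTop (𝓝 (f l))) :
    ∃ m : ℕ → ℕ, StrictMono m ∧ 0 < m 0 ∧ ∀ n, 100 ≤ n →
      ‖cesaro (fun i => dot (avg m 1 i) x) n - l‖ ≤ 3 / 4 := by
  obtain ⟨es, hes⟩ := h.exists_biorth
  set z : ℕ → T := fun n => x n - l with hz
  -- the step
  have hstep : ∀ q : ℕ × ℕ, ∃ q' : ℕ × ℕ, q.1 < q'.1 ∧ q.2 < q'.2 ∧ 100 * (q.2 + 1) ≤ q'.1 ∧
      ‖Lc e (seg es 0 q.2 (z q'.1))‖ ≤ 1 / 100 ∧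
      ‖z q'.1 - Lc e (seg es 0 q'.2 (z q'.1))‖ ≤ 1 / 100 := by
    rintro ⟨m, a⟩
    have h1 : Tendsto (fun n => ‖Lc e (seg es 0 a (z n))‖) atTop (𝓝 0) := by
      have h2 : Tendsto (fun n => Lc e (seg es 0 a (z n))) atTop (𝓝 0) := by
        have h3 : (fun n => Lc e (seg es 0 a (z n))) =
            fun n => ∑ i ∈ Ico 0 a, es i (z n) • e i := by
          funext n
          rw [seg, map_sum]
          exact Finset.sum_congr rfl fun i _ => Lc_single _ _
        rw [h3]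
        have h4 : Tendsto (fun n => ∑ i ∈ Ico 0 a, es i (z n) • e i) atTop
            (𝓝 (∑ i ∈ Ico 0 a, (0 : ℝ) • e i)) := by
          apply tendsto_finsetSum
          intro i _
          apply Tendsto.smul_const
          have h5 := (hl (es i)).sub_const (es i l)
          rw [sub_self] at h5
          refine h5.congr fun n => ?_
          rw [hz, map_sub]
        simpa using h4
      simpa using h2.norm
    obtain ⟨m', hm1, hm2⟩ := ((h1.eventually (ge_mem_nhds (show (0 : ℝ) < 1 / 100 by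
      norm_num))).and (eventually_ge_atTop (max (m + 1) (100 * (a + 1))))).exists
    obtain ⟨N, hN⟩ := tendsto_seg h hes (z m') (show (0 : ℝ) < 1 / 100 by norm_num)
    refine ⟨(m', max N (a + 1)), ?_, ?_, ?_, hm1, (hN _ (le_max_left _ _)).le⟩
    · show m < m'
      have := le_max_left (m + 1) (100 * (a + 1))
      omega
    · show a < max N (a + 1)
      have := le_max_right N (a + 1)
      omega
    · show 100 * (a + 1) ≤ m'
      exact (le_max_right _ _).trans hm2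
  choose q' hq1 hq2 hq3 hq4 hq5 using hstep
  obtain ⟨a₀, ha₀⟩ := tendsto_seg h hes l (show (0 : ℝ) < 1 / 100 by norm_num)
  let st : ℕ → ℕ × ℕ := fun j => Nat.rec (0, a₀) (fun _ q => q' q) j
  have hst : ∀ j, st (j + 1) = q' (st j) := fun j => rfl
  let a : ℕ → ℕ := fun j => (st j).2
  let m : ℕ → ℕ := fun j => (st (j + 1)).1
  have ha : Monotone a := monotone_nat_of_le_succ fun j => (hq2 (st j)).le
  have hm : StrictMono m := strictMono_nat_of_lt_succ fun j => hq1 (st (j + 1))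
  have hm0 : 0 < m 0 := lt_of_le_of_lt (Nat.zero_le _) (hq1 (st 0))
  have hmpos := pos_of_strictMono hm hm0
  let f : ℕ → (ℕ →₀ ℝ) := fun j => seg es (a j) (a (j + 1)) (z (m j))
  have hf : ∀ j p, f j p ≠ 0 → a j ≤ p ∧ p < a (j + 1) := by
    intro j p hp
    by_contra hcon
    apply hp
    show seg es (a j) (a (j + 1)) (z (m j)) p = 0
    rw [seg_apply, if_neg hcon]
  have hC : ∀ j, ‖Lc e (f j)‖ ≤ 101 / 100 := by
    intro j
    refine (norm_seg_le' h hes (a j) (a (j + 1)) (z (m j))).trans ?_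
    have h1 : z (m j) - Lc e (seg es 0 (a j) (z (m j))) =
        (x (m j) - Lc e (seg es 0 (a j) (x (m j)))) - (l - Lc e (seg es 0 (a j) l)) := by
      rw [hz]
      dsimp only
      rw [seg_sub, map_sub]
      abel
    rw [h1]
    refine (norm_sub_le _ _).trans ?_
    have h2 := (norm_sub_seg_le h hes (a j) (x (m j))).trans (hx _)
    have h3 := ha₀ (a j) (ha (Nat.zero_le j))
    linarith
  have herr : ∀ j, ‖z (m j) - Lc e (f j)‖ ≤ 2 / 100 := by
    intro j
    have h1 : z (m j) - Lc e (f j) = (z (m j) - Lc e (seg es 0 (a (j + 1)) (z (m j)))) +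
        Lc e (seg es 0 (a j) (z (m j))) := by
      show z (m j) - Lc e (seg es (a j) (a (j + 1)) (z (m j))) = _
      rw [seg_split (ha (Nat.le_succ j)), map_sub]
      abel
    rw [h1]
    refine (norm_add_le _ _).trans ?_
    have h2 := hq4 (st j)
    have h3 := hq5 (st j)
    have h4 : ‖Lc e (seg es 0 (a j) (z (m j)))‖ ≤ 1 / 100 := h2
    have h5 : ‖z (m j) - Lc e (seg es 0 (a (j + 1)) (z (m j)))‖ ≤ 1 / 100 := h3
    linarith
  have hsK : ∀ i, 100 * (a (kq m i) + 1) ≤ m (kq m i) := fun i => hq3 (st (kq m i))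
  refine ⟨m, hm, hm0, fun n hn => ?_⟩
  have hW := norm_WW_le h ha hf hC (k := kq m) (s := fun i => m (kq m i)) (fun i => hmpos _)
    (K := 100) (by norm_num) hsK (kq_succ m) (n + 1)
  have hn' : (100 : ℝ) ≤ n := by exact_mod_cast hn
  -- the difference
  have hdot : ∀ i, dot (avg m 1 i) x - l =
      (1 / (m (kq m i) : ℝ)) • ∑ j ∈ Ico (kq m i) (kq m (i + 1)), z (m j) := by
    intro i
    have hs' : (m (kq m i) : ℝ) ≠ 0 := by
      have := hmpos (kq m i)
      exact_mod_cast this.ne'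
    rw [dot_avg_one, hz]
    dsimp only
    rw [Finset.sum_sub_distrib, smul_sub, Finset.sum_const, Nat.card_Ico, kq_succ,
      Nat.add_sub_cancel_left, ← Nat.cast_smul_eq_nsmul ℝ, smul_smul, one_div_mul_cancel hs',
      one_smul]
  have hmain : cesaro (fun i => dot (avg m 1 i) x) n - l =
      (1 / ((n : ℝ) + 1)) • Lc e (WW f (kq m) (fun i => m (kq m i)) (n + 1)) +
      cesaro (fun i => (1 / (m (kq m i) : ℝ)) • ∑ j ∈ Ico (kq m i) (kq m (i + 1)),
        (z (m j) - Lc e (f j))) n := by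
    have h1 : cesaro (fun i => dot (avg m 1 i) x) n - l =
        cesaro (fun i => (1 / (m (kq m i) : ℝ)) • ∑ j ∈ Ico (kq m i) (kq m (i + 1)),
          z (m j)) n := by
      rw [cesaro, cesaro, ← Finset.sum_congr rfl fun i _ => hdot i, Finset.sum_sub_distrib,
        smul_sub, Finset.sum_const, Finset.card_range, ← Nat.cast_smul_eq_nsmul ℝ, smul_smul]
      have : (1 / ((n : ℝ) + 1)) * ((n + 1 : ℕ) : ℝ) = 1 := by
        push_cast
        field_simp
      rw [this, one_smul]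
    rw [h1, cesaro, cesaro, WW, map_sum, ← smul_add, ← Finset.sum_add_distrib]
    congr 1
    refine Finset.sum_congr rfl fun i _ => ?_
    rw [map_smul, map_sum, ← smul_add, ← Finset.sum_add_distrib]
    congr 1
    refine Finset.sum_congr rfl fun j _ => ?_
    abel
  rw [hmain]
  refine (norm_add_le _ _).trans ?_
  have h1 : ‖(1 / ((n : ℝ) + 1)) • Lc e (WW f (kq m) (fun i => m (kq m i)) (n + 1))‖ ≤
      3 / 4 - 2 / 100 := by
    rw [norm_smul, Real.norm_of_nonneg (by positivity), one_div, inv_mul_le_iff₀ (by positivity)]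
    refine hW.trans ?_
    push_cast
    nlinarith
  have h2 : ‖cesaro (fun i => (1 / (m (kq m i) : ℝ)) • ∑ j ∈ Ico (kq m i) (kq m (i + 1)),
      (z (m j) - Lc e (f j))) n‖ ≤ 2 / 100 :=
    norm_cesaro_le (fun i => norm_block_le hmpos i _ herr) n
  linarith

end upper

section main

variable {T : Type} [NormedAddCommGroup T] [NormedSpace ℝ T] {e : ℕ → T}

lemma dot_norm_le {x : ℕ → T} (hx : ∀ n, ‖x n‖ ≤ 1) {m : ℕ → ℕ} (hm : StrictMono m)
    (hm0 : 0 < m 0) (n : ℕ) : ‖cesaro (fun i => dot (avg m 1 i) x) n‖ ≤ 1 := by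
  apply norm_cesaro_le
  intro i
  rw [dot_avg_one]
  exact norm_block_le (pos_of_strictMono hm hm0) i _ fun j => hx _

lemma ccaTilde_le (h : IsTsirelson T e) {x : ℕ → T} (hx : ∀ n, ‖x n‖ ≤ 1)
    (hw : WeaklyConvergent x) : ccaTilde 1 x ≤ 3 / 2 := by
  obtain ⟨l, hl⟩ := hw
  obtain ⟨m, hm, hm0, hest⟩ := upper_est h hx hl
  have hbdd : BddBelow (Set.range fun m : {m : ℕ → ℕ // StrictMono m ∧ 0 < m 0} =>
      cca (fun n => dot (avg m.1 1 n) x)) :=
    ⟨0, by rintro _ ⟨m, rfl⟩; exact ca_nonneg _⟩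
  refine (ciInf_le hbdd ⟨m, hm, hm0⟩).trans ?_
  have hbdd2 : BddBelow (Set.range fun n : ℕ => ⨆ p : {p : ℕ × ℕ // n ≤ p.1 ∧ n ≤ p.2},
      ‖cesaro (fun i => dot (avg m 1 i) x) p.1.1 - cesaro (fun i => dot (avg m 1 i) x) p.1.2‖) :=
    ⟨0, by rintro _ ⟨n, rfl⟩; exact Real.iSup_nonneg fun _ => norm_nonneg _⟩
  refine (ciInf_le hbdd2 100).trans ?_
  have : Nonempty {p : ℕ × ℕ // 100 ≤ p.1 ∧ 100 ≤ p.2} := ⟨⟨(100, 100), le_rfl, le_rfl⟩⟩
  apply ciSup_le
  rintro ⟨⟨k, k'⟩, h1, h2⟩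
  have h3 := hest k h1
  have h4 := hest k' h2
  have h5 : cesaro (fun i => dot (avg m 1 i) x) k - cesaro (fun i => dot (avg m 1 i) x) k' =
      (cesaro (fun i => dot (avg m 1 i) x) k - l) -
        (cesaro (fun i => dot (avg m 1 i) x) k' - l) := by abel
  dsimp only
  rw [h5]
  refine (norm_sub_le _ _).trans ?_
  linarith

lemma le_ccaTilde (h : IsTsirelson T e) : 1 / 8 ≤ ccaTilde 1 e := by
  have : Nonempty {m : ℕ → ℕ // StrictMono m ∧ 0 < m 0} :=
    ⟨⟨fun n => n + 1, fun a b hab => Nat.succ_lt_succ hab, Nat.one_pos⟩⟩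
  apply le_ciInf
  rintro ⟨m, hm, hm0⟩
  apply le_ciInf
  intro n
  have hb := dot_norm_le (x := e) (fun i => norm_e_le h i) hm hm0
  refine le_ciSup_of_le (bdd_diff hb n) ⟨(n, 2 * n + 1), le_rfl, by omega⟩ ?_
  dsimp only
  rw [cesaro_eq, cesaro_eq]
  exact lower_est h hm hm0 n

lemma bounds (h : IsTsirelson T e) : 1 / 8 ≤ wbs 1 (Metric.closedBall (0 : T) 1) ∧
    wbs 1 (Metric.closedBall (0 : T) 1) ≤ 3 / 2 := by
  have hle : ∀ c ∈ {c | ∃ x : ℕ → T, (∀ n, x n ∈ Metric.closedBall (0 : T) 1) ∧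
      WeaklyConvergent x ∧ c = ccaTilde 1 x}, c ≤ 3 / 2 := by
    rintro c ⟨x, hx, hw, rfl⟩
    exact ccaTilde_le h (fun n => mem_closedBall_zero_iff.1 (hx n)) hw
  have hmem : ccaTilde 1 e ∈ {c | ∃ x : ℕ → T, (∀ n, x n ∈ Metric.closedBall (0 : T) 1) ∧
      WeaklyConvergent x ∧ c = ccaTilde 1 x} := by
    refine ⟨e, fun n => mem_closedBall_zero_iff.2 (norm_e_le h n), ⟨0, fun f => ?_⟩, rfl⟩
    rw [map_zero]
    exact weakly_null h f
  exact ⟨(le_ccaTilde h).trans (le_csSup ⟨3 / 2, hle⟩ hmem), csSup_le ⟨_, hmem⟩ hle⟩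

end main

/-- For Tsirelson space `T` one has `1/8 ≤ wbs_1(B_T) ≤ 3/2`; hence the dichotomy
`wbs_ξ(B_X) ∈ {0, 2}` fails for `ξ = 1`. -/
theorem result :
    (∀ (T : Type) [NormedAddCommGroup T] [NormedSpace ℝ T] (e : ℕ → T), IsTsirelson T e →
      1 / 8 ≤ wbs 1 (Metric.closedBall (0 : T) 1) ∧
        wbs 1 (Metric.closedBall (0 : T) 1) ≤ 3 / 2) ∧
    ∃ (X : Type) (_ : NormedAddCommGroup X) (_ : NormedSpace ℝ X) (_ : CompleteSpace X),
      wbs 1 (Metric.closedBall (0 : X) 1) ≠ 0 ∧ wbs 1 (Metric.closedBall (0 : X) 1) ≠ 2 := by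
  refine ⟨fun T _ _ e h => bounds h, TT, inferInstance, inferInstance, inferInstance, ?_, ?_⟩
  · have := (bounds isTsirelson_TT).1
    intro h0
    rw [h0] at this
    norm_num at this
  · have := (bounds isTsirelson_TT).2
    intro h0
    rw [h0] at this
    norm_num at this

end Pool.Agent.Results.MP_a61181_an.TsirelsonIntermediate
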